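import Pool.Agent.H42.GS1
import Pool.Agent.H42.GS2

open Pool.Agent.H42.ZF

/-- Independence from ZFC: there is a model of ZFC in which every Gale-Stewart game on continuum
many boards is determined, and a model of ZFC with one payoff set whose game is undetermined
for every nonempty set of boards. -/
theorem Pool.Agent.Results.MP_4e0375_lc.Full.result :
    (∃ (M : Type 1) (E : M → M → Prop), ZFC E ∧ ∃ w B V, IsOmega E w ∧ IsFunSet E B w w ∧
      IsFunSet E V B w ∧ ∀ S, Sub E S B → OneWins E S B w V ∨ TwoWins E S B w V) ∧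
    (∃ (M : Type 1) (E : M → M → Prop), ZFC E ∧ ∃ w B S, IsOmega E w ∧ IsFunSet E B w w ∧
      Sub E S B ∧ ∀ K V, (∃ a, E a K) → IsFunSet E V K w →
        ¬ (OneWins E S K w V ∨ TwoWins E S K w V)) := by
  constructor
  · obtain ⟨U, -⟩ := ex_ult (P := Sg)
      (Fn.one Cardinal.aleph0_lt_aleph_one.le (∅, 0, fun _ => 0) 0)
    exact ⟨M U, E U, M_zfc U, _, _, _, isOmega_omegaN, isFunSet_funN _ _, isFunSet_funN _ _,
      determined U⟩
  · obtain ⟨U, -⟩ := ex_ult (P := Co) (Fn.one le_rfl (Classical.arbitrary _) (Classical.arbitrary _))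
    exact ⟨M U, E U, M_zfc U, _, _, _, isOmega_omegaN, isFunSet_funN _ _, payoff_sub U,
      undetermined U⟩
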